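import Mathlib
import Pool.Agent.Q174.StftLattice

/-!
# MP_19ca7b_an, Q1: no lattice has finite deficiency for STFT phase retrieval

For every window `g ∈ L²(ℝ)`, every (shifted) lattice `A ℤ² + z` and every finite `P ⊆ ℝ²` the pair
`(g, (A ℤ² + z) ∪ P)` does not have the uniqueness property.
-/

set_option autoImplicit false

open MeasureTheory

namespace Pool.Agent.Results.MP_19ca7b_an.NoFiniteDeficiency

open Pool.Agent.Q174.STFT

theorem result (g : ℝ → ℂ) (hg : MemLp g 2 volume) (A : Matrix (Fin 2) (Fin 2) ℝ)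
    (hA : A.det ≠ 0) (z : ℝ × ℝ) (P : Set (ℝ × ℝ)) (hP : P.Finite) :
    ¬ Uniqueness g (shiftedLattice A z ∪ P) :=
  not_uniqueness g hg A hA z P hP

end Pool.Agent.Results.MP_19ca7b_an.NoFiniteDeficiency
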